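import Pool.Agent.H499.ES.Quad

/-!
# The exact number of twists in the isolation of a Galois representation

The constructions of the Galois representation of an automorphic representation `π` by Harris, Lan, Taylor, Thorne
and by Scholze end with the following step. For many characters `χ_i` (powers of the cyclotomic character) one has
representations `R_i` whose Frobenius eigenvalues are those expected for `π` (below: `D v`, with `n` elements),
together with `χ_i` times a second family (below: `D' v`, with `n'` elements), and one wants to find the
representation of `π` itself. We determine how many characters are necessary.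

Let `K` be a number field, `S` a set of finite places of density zero, and `χ_1, ..., χ_N` continuous characters of
`G_K` with values in the algebraic closure of `ℚ_ℓ`, unramified outside `S`, such that all quotients `χ_i / χ_j`
with `i ≠ j` have infinite order, and at each `v ∉ S` there are `i, j` such that the quotient of the Frobenius
values of `χ_i` and `χ_j` does not have an order which is at most `min n n'` (for example `χ_i = t ^ a_i`, where the
integers `a_i` are different and the Frobenius values of `t` are not roots of unity). Let `D v`, `D' v` be ANY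
multisets with `n`, `n'` elements for `v ∉ S`, such that for every `i` there is a continuous semisimple
representation `R_i`, unramified outside `S`, with the geometric Frobenius eigenvalues `D v` and `χ_i D' v`.

1. Then `D` and `D'` are the Frobenius eigenvalues of differences of two representations.
2. If `N > n'` or `n = 1`, then `D` belongs to a continuous semisimple representation.
3. If `N > n` or `n' = 1`, then `D'` belongs to a continuous semisimple representation.
4. 2 and 3 are optimal for EVERY family of characters, if `S` contains a certain finite set `S0` (such that there are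
   two different nontrivial quadratic characters unramified outside `S`): if `N ≤ n'` and `n ≥ 2`, there are
   `D`, `D'` as above such that `D` does not belong to a representation, also after the removal of more places
   (a set of density zero), and similarly for `D'` if `N ≤ n` and `n' ≥ 2`.

So `n' + 1` characters are necessary and sufficient to find the representation belonging to `D` if `n ≥ 2`, and
`max n n' + 1` for both (if `n, n' ≥ 2`).

Idea of the proof: let `H` be the Zariski closure of the image of `G_K` under the sum of all `R_i` and `χ_i`. The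
characters `χ_i` are separated by the centre of the (reductive) group `H`, so that there is a central one-parameter
group of `H` with weights `e_i` on `χ_i`, all different (proved here with polynomial relations, replicas of matrices
and the trace form). It gives gradings of the `R_i` by integers. The identity of characteristic polynomials extends
to all points of `H`, and at a generic point of the coset of the one-parameter group through `g` the eigenvalues are
distributed on the degrees: `P j + χ_i Q (j - e_i) = R i j`, where `P`, `Q` are gradings of `D`, `D'`, with sizes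
independent of `g`. If `N > n`, then for all `j` one of the `P (j + e_i)` is zero, so `Q j` is the representation
`χ_i⁻¹ R i (j + e_i)`. For 4 one takes `D = (n - 1) a + b + a b - 1` and `D' = ∑ χ_i⁻¹ + ...` with quadratic
characters `a`, `b`.
-/

set_option autoImplicit false

namespace Pool.Agent.Results.MP_ef641d_nt.ExactIsolation

open NumberField IsDedekindDomain
open Pool.Agent.W401.Cheb (GK)
open Pool.Agent.H499.CM (UpperDensityLE)
open Pool.Agent.H499.ES (IsAttached IsVirtual UnrChar)

/-- families of multisets of elements of the algebraic closure of `ℚ_ℓ`, indexed by the finite places of `K` -/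
abbrev Families (K : Type) [Field K] [NumberField K] (ℓ : ℕ) [Fact ℓ.Prime] : Type :=
  HeightOneSpectrum (𝓞 K) → Multiset (PadicAlgCl ℓ)

section

variable {K : Type} [Field K] [NumberField K] {ℓ : ℕ} [Fact ℓ.Prime] (S : Set (HeightOneSpectrum (𝓞 K)))
  (n n' : ℕ) {N : ℕ} (χ : Fin N → GK K →* (PadicAlgCl ℓ)ˣ) (τ : Fin N → HeightOneSpectrum (𝓞 K) → (PadicAlgCl ℓ)ˣ)
  (D D' : Families K ℓ)

/-- The `χ i` are continuous characters, unramified outside `S`, with the values `τ i v` at the geometric Frobenius
elements; the quotients of two of them have infinite order, and at each `v ∉ S` there are two of them such that the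
quotient of the Frobenius values does not have an order which is at most `min n n'`. -/
structure Characters : Prop where
  char : ∀ i, UnrChar S (χ i) (τ i)
  infinite : ∀ i j, i ≠ j → ∀ m : ℕ, 0 < m → χ i ^ m ≠ χ j ^ m
  separate : ∀ v ∉ S, ∃ i j, ∀ m : ℕ, 0 < m → m ≤ min n n' → τ i v ^ m ≠ τ j v ^ m

/-- `D v` and `D' v` have `n` and `n'` elements, and for every `i` there is a representation with the Frobenius
eigenvalues `D v` and `τ i v` times `D' v`. -/
def Twisted : Prop :=
  (∀ v ∉ S, Multiset.card (D v) = n ∧ Multiset.card (D' v) = n') ∧
    ∀ i, IsAttached S fun v => D v + (D' v).map fun x => (τ i v : PadicAlgCl ℓ) * x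

/-- There is no representation belonging to `D`, also after the removal of more places. -/
def NotAttached : Prop :=
  ∀ S' : Set (HeightOneSpectrum (𝓞 K)), S ⊆ S' → UpperDensityLE (fun v => v ∈ S') 0 → ¬ IsAttached S' D

end

theorem result (K : Type) [Field K] [NumberField K] (ℓ : ℕ) [Fact ℓ.Prime] :
    ∃ S0 : Set (HeightOneSpectrum (𝓞 K)), S0.Finite ∧
      ∀ S : Set (HeightOneSpectrum (𝓞 K)), UpperDensityLE (fun v => v ∈ S) 0 →
        ∀ n n' N : ℕ, 1 ≤ n → 1 ≤ n' → ∀ (χ : Fin N → GK K →* (PadicAlgCl ℓ)ˣ)
          (τ : Fin N → HeightOneSpectrum (𝓞 K) → (PadicAlgCl ℓ)ˣ), Characters S n n' χ τ →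
          (∀ D D' : Families K ℓ, Twisted S n n' τ D D' → IsVirtual S D ∧ IsVirtual S D' ∧
            (n = 1 ∨ n' < N → IsAttached S D) ∧ (n' = 1 ∨ n < N → IsAttached S D')) ∧
          (S0 ⊆ S → ¬ (n = 1 ∨ n' < N) → ∃ D D' : Families K ℓ, Twisted S n n' τ D D' ∧ NotAttached S D) ∧
          (S0 ⊆ S → ¬ (n' = 1 ∨ n < N) → ∃ D D' : Families K ℓ, Twisted S n n' τ D D' ∧ NotAttached S D') := by
  obtain ⟨S0, hS0, a, b, ha2, hb2, ha, hb, hab, hun⟩ := Pool.Agent.H499.ES.exists_quad K ℓ
  refine ⟨S0, hS0, fun S hS n n' N hn hn' χ τ hχ => ⟨fun D D' hD => ?_, fun hSS hneg => ?_, fun hSS hneg => ?_⟩⟩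
  · exact Pool.Agent.H499.ES.positive hS hn hn' hχ.char (fun i j hij =>
      Pool.Agent.H499.ES.exists_infinite (hχ.char i).cont (hχ.char j).cont (hχ.infinite i j hij)) hχ.separate
      (fun v hv => (hD.1 v hv).1) (fun v hv => (hD.1 v hv).2) hD.2
  · have hN : 0 < N := by
      obtain ⟨v, hv⟩ := Pool.Agent.H499.ES.exists_not_mem hS
      obtain ⟨i, -⟩ := hχ.separate v hv
      exact i.pos
    obtain ⟨⟨α, hα⟩, β, hβ⟩ := hun S hSS
    obtain ⟨D, D', h1, h2, h3, h4⟩ := Pool.Agent.H499.ES.sharp (S := S) (n := n) (n' := n') (N := N) (by omega) hN
      (by omega) hχ.char hα hβ ha2 hb2 ha hb hab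
    exact ⟨D, D', ⟨fun v hv => ⟨h1 v hv, h2 v hv⟩, h3⟩, h4⟩
  · have hN : 0 < N := by
      obtain ⟨v, hv⟩ := Pool.Agent.H499.ES.exists_not_mem hS
      obtain ⟨i, -⟩ := hχ.separate v hv
      exact i.pos
    obtain ⟨⟨α, hα⟩, β, hβ⟩ := hun S hSS
    obtain ⟨D, D', h1, h2, h3, h4⟩ := Pool.Agent.H499.ES.sharp' (S := S) (n := n) (n' := n') (N := N) (by omega) hN
      (by omega) hχ.char hα hβ ha2 hb2 ha hb hab
    exact ⟨D, D', ⟨fun v hv => ⟨h1 v hv, h2 v hv⟩, h3⟩, h4⟩

end Pool.Agent.Results.MP_ef641d_nt.ExactIsolation
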