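import Pool.Agent.H499.PW.Unif

/-!
# Weak approximations: a finite set of places and one more place

Let `K` be a number field (`K = ℚ` in Q1), `ℓ` a prime number, `n ≥ 0`, `S` a finite set of finite places of
`K`, and `U` an open subgroup of the absolute Galois group `G_K`. We consider representations `r` of `G_K` of
dimension `n` over local rings `A`, with open kernel, unramified outside `S`, such that the characteristic
polynomial of `r u` is `(X - 1) ^ n` modulo the maximal ideal for all `u ∈ U` (the residual representation is
unipotent on `U`; for representations whose residual matrices have entries in the field with `q` elements one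
subgroup `U` is enough, see 4 below). We call them admissible, and similarly for continuous representations over
the algebraic closure of `ℚ_ℓ`.

There is a FINITE set `P` of places of `K` outside `S`, which depends on `K, ℓ, n, S, U` only, such that the
following is true.

1. If `A` is any local ring in which the ideals are totally ordered, with `ℓ` in the maximal ideal (for
   example `O / ℓ ^ m` with `O` the ring of integers of the algebraic closure of `ℚ_ℓ`, or of a finite
   extension; `A` need not be noetherian, its residue field can be infinite, and `ℓ ≤ n` is allowed), and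
   `r, r'` are admissible representations over `A` (not necessarily semisimple, not necessarily residually
   irreducible) whose TRACES at the Frobenius elements of `P` are the same, then the traces of `r` and `r'` are
   the same.
2. For admissible representations `ρ, ρ'` over the algebraic closure of `ℚ_ℓ` the maximum of the absolute value of
   `tr ρ - tr ρ'` on the whole group `G_K` is attained at `P`.
3. Let `α v = (α v 1, ..., α v n)` for `v ∉ S` be the Satake parameters of an algebraic automorphic
   representation `π`, unramified outside `S` (or any other data). The following are equivalent.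
   (a) There is a continuous semisimple representation `ρ` of `G_K` over the algebraic closure of `ℚ_ℓ`, which
       corresponds to `α v` at ALL `v ∉ S` (the statement of Q1) and is admissible.
   (b) For every `m` and EVERY SINGLE `v ∉ S` there is an admissible representation `r` over the integers modulo
       `ℓ ^ m`, depending on `m` and `v`, which corresponds to `α v` modulo `ℓ ^ m` at `v`, and whose traces
       at the places of the finite set `P` are correct modulo `ℓ ^ m`.
   (c) The same with `ℓ`-adic representations.
   Moreover, then `tr ρ ≡ tr r` modulo `ℓ ^ m` on the whole group `G_K` for EVERY admissible `r` modulo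
   `ℓ ^ m` whose traces at `P` are correct modulo `ℓ ^ m`.
4. For every `q > 1` there is `U` such that all representations over the integers modulo `ℓ ^ m` or over the
   algebraic closure of `ℚ_ℓ`, unramified outside `S`, whose matrix entries `x` are integral and satisfy
   `x ^ q ≡ x` modulo the maximal ideal, are admissible. This includes all representations over the ring of
   integers of a finite extension of `ℚ_ℓ` whose residue field has `q` elements.

In (b) and (c) it is not assumed that the sums of the Satake parameters are in a finite extension of `ℚ_ℓ` (this is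
part of the conclusion), the representations `r` for different `m` and `v` need not be compatible, and at each place
of `P` only the congruence of one number is required. For example, if for each `m` and `v` the automorphic
representation `π` is congruent modulo `ℓ ^ m` at the places of `P ∪ {v}` to a REGULAR algebraic representation,
depending on `m` and `v`, unramified outside `S`, of any weight, and with an admissible Galois representation, then Q1
is true for `π` and `ℓ` (at the places outside `S`).

Idea of the proof of 1. Let `M` be the module generated by the pairs `(r g, r' g)`. In a module over a ring with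
totally ordered ideals in which the finitely generated submodules are generated by `d = 2 n²` elements, one has a
chain of `d` steps: a group acting on `M`, unipotently modulo the maximal ideal, such that each step is a
homomorphism to an elementary abelian `ℓ`-group, acts trivially as soon as `d` successive such homomorphisms are
trivial. By the theorem of Hermite and Minkowski the possible homomorphisms of each step factor through a finite
quotient which is independent of `r`, `r'` and `A`, and the theorem of Chebotarev gives `P`. This is the method of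
Faltings and Serre, but with `A` arbitrary, without a choice of a lattice or of a power of `ℓ`.
-/

set_option autoImplicit false

namespace Pool.Agent.Results.MP_ef641d_nt.FinitelyManyPlaces

open NumberField IsDedekindDomain IsLocalRing
open Pool.Agent.W401.Cheb (GK IsFrob IsInert)
open Pool.Agent.H499.CM Pool.Agent.H499.PW

/-- families of Satake parameters -/
abbrev Params (K : Type) [Field K] [NumberField K] (ℓ : ℕ) [Fact ℓ.Prime] (n : ℕ) : Type :=
  HeightOneSpectrum (𝓞 K) → Fin n → PadicAlgCl ℓ

/-- representations of the absolute Galois group over the algebraic closure of `ℚ_ℓ` -/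
abbrev Rep (K : Type) [Field K] [NumberField K] (ℓ : ℕ) [Fact ℓ.Prime] (n : ℕ) : Type :=
  GK K →* GL (Fin n) (PadicAlgCl ℓ)

/-- the integers of the algebraic closure of `ℚ_ℓ` modulo `ℓ ^ m` -/
def Tor (ℓ : ℕ) [Fact ℓ.Prime] (m : ℕ) : Type := OO ℓ ⧸ Ideal.span {(ℓ : OO ℓ) ^ m}

noncomputable instance instTor (ℓ : ℕ) [Fact ℓ.Prime] (m : ℕ) : CommRing (Tor ℓ m) :=
  Ideal.Quotient.commRing (Ideal.span {(ℓ : OO ℓ) ^ m})

/-- reduction modulo `ℓ ^ m` -/
noncomputable def red (ℓ : ℕ) [Fact ℓ.Prime] (m : ℕ) : OO ℓ →+* Tor ℓ m :=
  Ideal.Quotient.mk (Ideal.span {(ℓ : OO ℓ) ^ m})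

/-- the trace -/
def tr {G A : Type} [Group G] [CommRing A] {n : ℕ} (r : G →* GL (Fin n) A) (σ : G) : A :=
  (r σ : Matrix (Fin n) (Fin n) A).trace

section

variable (K : Type) [Field K] [NumberField K] (ℓ : ℕ) [Fact ℓ.Prime] (n : ℕ)
  (S : Set (HeightOneSpectrum (𝓞 K))) (U : Subgroup (GK K)) (P : Finset (HeightOneSpectrum (𝓞 K)))

/-- 1. The traces at the geometric Frobenius elements of `P` determine the traces of admissible representations over
all local rings with totally ordered ideals. -/
def TracesDetermined : Prop :=
  ∀ (A : Type) [CommRing A] [IsLocalRing A], (∀ a b : A, a ∣ b ∨ b ∣ a) → (ℓ : A) ∈ maximalIdeal A →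
    ∀ r r' : GK K →* GL (Fin n) A, Adm S U r → Adm S U r' →
      (∀ v ∈ P, ∀ σ, IsFrob v σ → tr r σ⁻¹ = tr r' σ⁻¹) → ∀ σ, tr r σ = tr r' σ

/-- 2. The distance of the traces of two admissible representations is attained at `P`. -/
def Isometry : Prop :=
  ∀ ρ ρ' : Rep K ℓ n, AdmAdic S U ρ → AdmAdic S U ρ' → ∀ ε : ℝ, 0 ≤ ε →
    (∀ v ∈ P, ∀ σ, IsFrob v σ → ‖tr ρ σ⁻¹ - tr ρ' σ⁻¹‖ ≤ ε) → ∀ σ, ‖tr ρ σ - tr ρ' σ‖ ≤ ε

/-- 3. Existence of `ρ` is equivalent to the existence of admissible representations modulo `ℓ ^ m` for each `m` which
are correct at `P` and at one more place, and to the same for `ℓ`-adic approximations. -/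
def Existence : Prop :=
  ∀ α : Params K ℓ n,
    (∀ strict : Bool, (∃ ρ : Rep K ℓ n, Attached S α strict ρ ∧ AdmAdic S U ρ) ↔
      WeakSystem S U P (red ℓ) strict α) ∧
    ((∃ ρ : Rep K ℓ n, Attached S α false ρ ∧ AdmAdic S U ρ) ↔ WeakAdic S U P α)

/-- The congruences with all admissible representations modulo `ℓ ^ m` which have the right traces at `P`. -/
def Congruences : Prop :=
  ∀ (α : Params K ℓ n) (ρ : Rep K ℓ n), Attached S α false ρ → AdmAdic S U ρ →
    ∀ m (r : GK K →* GL (Fin n) (Tor ℓ m)), AdmMod S U (red ℓ m) r → (∀ w ∈ P, TraceMod (red ℓ m) r w (α w)) →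
      ∀ σ, ∃ t : OO ℓ, tr ρ σ = t ∧ red ℓ m t = tr r σ

/-- 4. All representations with residual entries in the field with `q` elements are admissible for `U`. -/
def AllAdmissible (q : ℕ) : Prop :=
  (∀ ρ : Rep K ℓ n, Continuous ρ → (∀ v ∉ S, ∀ σ, IsInert v σ → ρ σ = 1) →
    (∀ σ i j, ‖(ρ σ : Matrix (Fin n) (Fin n) (PadicAlgCl ℓ)) i j‖ ≤ 1 ∧
      ‖(ρ σ : Matrix (Fin n) (Fin n) (PadicAlgCl ℓ)) i j ^ q -
        (ρ σ : Matrix (Fin n) (Fin n) (PadicAlgCl ℓ)) i j‖ < 1) → AdmAdic S U ρ) ∧
  ∀ m (r : GK K →* GL (Fin n) (Tor ℓ m)), IsOpen (r.ker : Set (GK K)) →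
    (∀ v ∉ S, ∀ σ, IsInert v σ → r σ = 1) →
    (∀ σ i j, ∃ x : OO ℓ, (r σ : Matrix (Fin n) (Fin n) (Tor ℓ m)) i j = red ℓ m x ∧
      ‖(x : PadicAlgCl ℓ) ^ q - x‖ < 1) → AdmMod S U (red ℓ m) r

end

theorem result (K : Type) [Field K] [NumberField K] (ℓ : ℕ) [Fact ℓ.Prime] (n : ℕ)
    (S : Set (HeightOneSpectrum (𝓞 K))) (hS : S.Finite) :
    (∀ U : Subgroup (GK K), IsOpen (U : Set (GK K)) → ∃ P : Finset (HeightOneSpectrum (𝓞 K)), (∀ v ∈ P, v ∉ S) ∧
      TracesDetermined K ℓ n S U P ∧ Isometry K ℓ n S U P ∧ Existence K ℓ n S U P ∧ Congruences K ℓ n S U P) ∧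
    ∀ q : ℕ, 1 < q → ∃ U : Subgroup (GK K), IsOpen (U : Set (GK K)) ∧ AllAdmissible K ℓ n S U q := by
  refine ⟨fun U hU => ?_, fun q hq => ?_⟩
  · obtain ⟨P, hPS, hP⟩ := exists_P (n := n) (ℓ := ℓ) S hS U hU
    have hD : Determines K ℓ n S U P := hP
    refine ⟨P, hPS, hP, fun ρ ρ' h1 h2 ε hε h σ => isometry hD ρ ρ' h1 h2 ε hε h σ, fun α => ⟨fun strict =>
      ⟨fun h => weak_of_attached hPS h, fun h => ?_⟩, ⟨fun h => adic_of_attached hPS h, fun h => ?_⟩⟩, ?_⟩
    · obtain ⟨ρ, h1, h2, -⟩ := exists_of_weak hS hPS hD strict α h
      exact ⟨ρ, h1, h2⟩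
    · obtain ⟨ρ, h1, h2, -⟩ := exists_of_weak hS hPS hD false α (weak_of_adic h)
      exact ⟨ρ, h1, h2⟩
    · intro α ρ h1 h2 m r hr hr2 σ
      obtain ⟨N, hN⟩ := exists_model ρ h1.1
      have h3 := determ_mod hD m (redRep N m) r (adm_redRep hN h2 m) hr (by
        intro v hv σ hσ
        obtain ⟨t, ht1, ht2⟩ := hN.traceNear m v (α v) (traceNear_of_corr (h1.2.2 v (hPS v hv)) m)
        obtain ⟨t', ht1', ht2'⟩ := hr2 v hv
        have e : t = t' := Subtype.ext (ht1.trans ht1'.symm)
        rw [ht2 σ hσ, e]
        exact (ht2' σ hσ).symm) σ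
      refine ⟨(N σ).trace, (hN.trace σ).symm, ?_⟩
      refine Eq.trans ?_ h3
      rw [redRep_apply, trace_map]
      rfl
  · obtain ⟨U, hU, h⟩ := exists_U (K := K) S hS n q hq
    exact ⟨U, hU, fun ρ h1 h2 h3 => adic_of_entries S n q hq U h ρ h1 h2 h3,
      fun m r h1 h2 h3 => adm_of_entries S n q hq U h m r h1 h2 h3⟩

end Pool.Agent.Results.MP_ef641d_nt.FinitelyManyPlaces
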