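import Pool.Agent.H500.MWN
import Pool.Agent.H500.ED.All

set_option autoImplicit false
set_option linter.unusedSectionVars false

/-!
# Galois representations of `π` from residual representations with solvable image

Let `π` be an algebraic cuspidal automorphic representation of `GL_n` over `ℚ`, unramified outside the
finite set `S` of primes, with Hecke polynomials `P p = ∏ i, (X - α p i)` (of `π_p ⊗ |det|^((1-n)/2)`)
with coefficients in the ring of integers of a number field `E`.  No condition is imposed on the
archimedean component (no regularity, no purity), and no bound for the Hecke eigenvalues is used: the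
theorem is about arbitrary polynomials `P p`.

Suppose that for a set of primes `v` of `E` of positive upper density the polynomials `P p` are matched
modulo `v` by a residual representation of the absolute Galois group of `ℚ` with SOLVABLE image, or by
residual representations whose constituents have projective images bounded by `c` (a subgroup of index
at most `c` acts by scalars).  Then for ALL primes `ℓ` and all isomorphisms `ι` there is a continuous
semisimple representation `ρ_π` which corresponds to `π_p` for all `p ∉ S`, `p ≠ ℓ`: the conclusion of Q1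
for `π`.  It is diagonal on an open subgroup.

The steps of the proof in the solvable case (projects SV, TH, ZO, ED): the theorem of Mal'cev; Kummer
theory and Chebotarev's theorem for families of fields, class field theory: existence of algebraic
Hecke characters `ψ_i` of a finite solvable extension `L` of `ℚ` which give the `f`-th powers of the
Hecke eigenvalues; the `ℓ`-adic characters of Hecke characters (class field theory with exact
conductors); the residual representations of large characteristic `l` have image of order prime to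
`l` and lift to characteristic zero; their constituents are twisted by the `ℓ`-adic characters of Hecke
characters of intermediate fields which are congruent to `1` modulo `v`; the resulting representations
have finitely many possible traces, and one of them fits for infinitely many `v`.
-/

namespace Pool.Agent.Results.MP_ef641d_nt.SolvableResidualImages

open NumberField IsDedekindDomain Filter Topology Polynomial Pool.Agent.Y800
open Pool.Agent.W401.Cheb (dens)

/-- There is a representation of dimension `n` of the absolute Galois group of `ℚ` with solvable image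
over a field which contains the residue field of `v`, with open kernel, unramified at the primes `p ∉ S`
with `p ∉ v`, and such that for these primes the characteristic polynomial of a geometric Frobenius
element at `p` is `P p` modulo `v`. -/
def SolvableResidual {E : Type} [Field E] [NumberField E] (n : ℕ) (P : ℕ → (𝓞 E)[X])
    (S : Finset ℕ) (v : HeightOneSpectrum (𝓞 E)) : Prop :=
  ∃ (k : Type) (_ : Field k) (φ : 𝓞 E →+* k) (ρ : GQ →* GL (Fin n) k),
    RingHom.ker φ = v.asIdeal ∧ IsOpen (ρ.ker : Set GQ) ∧ Group.IsSolvable ρ.range ∧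
    ∀ p : ℕ, p.Prime → p ∉ S → (p : 𝓞 E) ∉ v.asIdeal → Unramified ρ p ∧
      ∀ Q : Ideal ZBar, Q.IsMaximal → (p : ZBar) ∈ Q → ∀ σ : GQ, IsGeomFrob p Q σ →
        (ρ σ : Matrix (Fin n) (Fin n) k).charpoly = (P p).map φ

/-- There are representations `ρ j` of positive dimension of the absolute Galois group of `ℚ` over a
field which contains the residue field of `v`, with open kernel, such that a subgroup of index at
most `c` acts by scalars on each of them, unramified at the primes `p ∉ S` with `p ∉ v`, and such that
for these primes the product of the characteristic polynomials of a geometric Frobenius element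
at `p` is `P p` modulo `v`. -/
def BoundedResidual {E : Type} [Field E] [NumberField E] (P : ℕ → (𝓞 E)[X]) (S : Finset ℕ) (c : ℕ)
    (v : HeightOneSpectrum (𝓞 E)) : Prop :=
  ∃ (k : Type) (_ : Field k) (φ : 𝓞 E →+* k) (J : Type) (_ : Fintype J) (m : J → ℕ)
    (ρ : ∀ j, GQ →* GL (Fin (m j)) k),
    RingHom.ker φ = v.asIdeal ∧ (∀ j, 0 < m j) ∧ (∀ j, IsOpen ((ρ j).ker : Set GQ)) ∧
    (∀ j, ∃ U : Subgroup GQ, U.index ≠ 0 ∧ U.index ≤ c ∧
      ∀ u ∈ U, ∃ x : k, (ρ j u : Matrix (Fin (m j)) (Fin (m j)) k) = x • 1) ∧
    ∀ p : ℕ, p.Prime → p ∉ S → (p : 𝓞 E) ∉ v.asIdeal → (∀ j, Unramified (ρ j) p) ∧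
      ∀ Q : Ideal ZBar, Q.IsMaximal → (p : ZBar) ∈ Q → ∀ σ : GQ, IsGeomFrob p Q σ →
        ∏ j, (ρ j σ : Matrix (Fin (m j)) (Fin (m j)) k).charpoly = (P p).map φ

theorem result {n : ℕ} {E : Type} [Field E] [NumberField E] (τ : E →+* ℂ) (S : Finset ℕ)
    (P : ℕ → (𝓞 E)[X]) (α : ℕ → Fin n → ℂ)
    (hP : ∀ p : ℕ, p.Prime → p ∉ S →
      (P p).map (τ.comp (algebraMap (𝓞 E) E)) = ∏ i, (X - C (α p i)))
    (c : ℕ) (hres : ¬ Tendsto (dens fun v => SolvableResidual n P S v ∨ BoundedResidual P S c v)
      atTop (𝓝 0)) :
    ∀ (ℓ : ℕ) [Fact ℓ.Prime] (ι : PadicAlgCl ℓ ≃+* ℂ), ∃ ρ : GQ →* GL (Fin n) (PadicAlgCl ℓ),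
      Continuous ρ ∧ IsSemisimple ρ ∧
      (∀ p : ℕ, p.Prime → p ∉ S → p ≠ ℓ → Corresponds ρ p fun i => ι.symm (α p i)) ∧
      ∃ U : Subgroup GQ, IsOpen (U : Set GQ) ∧
        ∀ u ∈ U, (ρ u : Matrix (Fin n) (Fin n) (PadicAlgCl ℓ)).IsDiag := by
  intro ℓ _ ι
  by_cases hb : Tendsto (dens fun v => BoundedResidual P S c v) atTop (𝓝 0)
  · have h1 : Pool.Agent.H500.MW.PosUD (Pool.Agent.H500.ED.SResS S n P) :=
      Pool.Agent.H500.MW.PosUD.mono
        (Pool.Agent.H500.MW.PosUD.diff (Pool.Agent.H500.MW.posUD_of_not hres) hb)
        fun v hv => hv.1.resolve_right hv.2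
    obtain ⟨j, e, hje⟩ : ∃ (j : E →+* Pool.Agent.H500.HC.QBar)
        (e : Pool.Agent.H500.HC.QBar →+* ℂ), e.comp j = τ := by
      let j : E →ₐ[ℚ] Pool.Agent.H500.HC.QBar := IsAlgClosed.lift
      obtain ⟨e, he⟩ := Pool.Agent.H500.ED.exists_ext (j : E →+* Pool.Agent.H500.HC.QBar) τ
      exact ⟨j, e, he⟩
    obtain ⟨U, -, hU, hex⟩ := Pool.Agent.H500.ED.rat_main Pool.Agent.H500.ED.all_EDM j S P h1
    obtain ⟨R, hR1, hR2, hR3, hR4⟩ := hex ℓ ((ι.symm : ℂ →+* PadicAlgCl ℓ).comp e)
      (fun p i => ι.symm (α p i)) (by
        intro p hp hpS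
        have h2 : ((((ι.symm : ℂ →+* PadicAlgCl ℓ).comp e).comp j).comp (algebraMap (𝓞 E) E)) =
            (ι.symm : ℂ →+* PadicAlgCl ℓ).comp (τ.comp (algebraMap (𝓞 E) E)) := by
          rw [← hje]
          rfl
        rw [h2, ← Polynomial.map_map, hP p hp hpS, Polynomial.map_prod]
        refine Finset.prod_congr rfl fun i _ => ?_
        rw [Polynomial.map_sub, Polynomial.map_X, Polynomial.map_C]
        rfl)
    exact ⟨R, hR1, hR2, hR4, U, hU, hR3⟩
  · obtain ⟨w, -, h1⟩ := Pool.Agent.H500.MW.main τ S P α hP c
      (Pool.Agent.H500.MW.posUD_of_not hb) fun _ hv => hv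
    obtain ⟨ρ, h2, h3, h4, U, π, hU, h5⟩ := h1 ℓ ι
    refine ⟨ρ, h2, h3, h4, U, hU, fun u hu => ?_⟩
    rw [h5 u hu]
    exact Matrix.isDiag_diagonal _

end Pool.Agent.Results.MP_ef641d_nt.SolvableResidualImages
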