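import Pool.Agent.H499.CM.Sharp

/-!
# Galois representations as limits of torsion Galois representations at most primes

Let `K` be a number field (`K = ℚ` in Q1), `ℓ` a prime number, `S` a finite set of finite places of `K`
and `α v = (α v 1, ..., α v n)` for `v ∉ S` the eigenvalues of a semisimple conjugacy class in `GL_n` over
the algebraic closure of `ℚ_ℓ`, for example the Satake parameters of `π_v ⊗ |det|^((1-n)/2)` for an
algebraic cuspidal automorphic representation `π` of `GL_n`, unramified outside `S`, transported by an
isomorphism of the algebraic closure of `ℚ_ℓ` with `ℂ`. Let `0 ≤ c < 1 / (4 n²)`. The following are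
equivalent.

1. There is a continuous semisimple representation `ρ` of the absolute Galois group `G_K` over the algebraic
   closure of `ℚ_ℓ` which corresponds to `α v` at all `v ∉ S` (the statement of Q1).
2. The sums `α v 1 + ... + α v n` lie in a finite extension of `ℚ_ℓ`, and for every `m` there is a
   representation `r m` of `G_K` over the integers modulo `ℓ ^ m`, with open kernel, such that the trace of
   `r m (Frob_v)` is correct for all `v` outside a set of places of upper density at most `c`, and every
   `v ∉ S` corresponds to infinitely many `r m` (they are unramified at `v` and the characteristic polynomial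
   of Frobenius is correct modulo `ℓ ^ m`).
3. The same with continuous representations over the algebraic closure of `ℚ_ℓ` which are correct modulo
   `ℓ ^ m`.

In 2 the exceptional sets may depend on `m`, the ramification of `r m` may grow with `m`, the `r m` need not be
semisimple, need not be residually irreducible, need not be compatible with each other and need not be
liftable. Nevertheless `ρ` satisfies `tr ρ ≡ tr r_m` modulo `ℓ ^ m` on the whole Galois group, for all `m`.

The constant is exact: for EVERY `n ≥ 1`, every number field `K` and every prime number `ℓ` there are data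
which satisfy 2 and 3 for `c = 1 / (4 n²)`, but not 1.

The equivalence of 1 and 2 is proved for both readings of the word corresponds: `strict = false` is the equality of
the characteristic polynomials, `strict = true` is the condition of the problem that `ρ (Frob_v)` lies in the
semisimple conjugacy class (in 2 the Frobenius elements then also satisfy, modulo `ℓ ^ m`, the polynomial whose
simple zeros are the different `α v i`).

For example, if `π` is congruent, for every `m`, modulo `ℓ ^ m` and for most places, to a REGULAR algebraic
representation of arbitrary level and weight (whose Galois representation exists by Harris-Lan-Taylor-Thorne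
and Scholze), in such a way that every place is eventually included, then Q1 holds for `π` and `ℓ`.

Idea of the proof. The main point is a strong multiplicity one theorem for representations over the integers
modulo `ℓ ^ m` (in general not semisimple): if the traces of two representations of dimension `n` agree on a
set of measure greater than `1 - 1 / (2 n²)`, they agree everywhere. Here one uses that ideals are totally
ordered, so that the module spanned by the image of the group is generated by at most `2 n²` elements which
can be chosen translated into the given set. So the traces of the `r m` are compatible. A limit of matrices is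
constructed over an ultraproduct, the traces are shown to be in the given finite extension by the same
argument applied to two embeddings of the ultraproduct, and the theory of traces gives `ρ`. For the last part,
Heisenberg extensions of degree `n³` of `K` are used, twisted with quadratic characters.
-/

set_option autoImplicit false

namespace Pool.Agent.Results.MP_ef641d_nt.TorsionAtMostPrimes

open NumberField IsDedekindDomain
open Pool.Agent.W401.Cheb (GK)
open Pool.Agent.H499.CM

/-- families of Satake parameters -/
abbrev Params (K : Type) [Field K] [NumberField K] (ℓ : ℕ) [Fact ℓ.Prime] (n : ℕ) : Type :=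
  HeightOneSpectrum (𝓞 K) → Fin n → PadicAlgCl ℓ

/-- representations of the absolute Galois group over the algebraic closure of `ℚ_ℓ` -/
abbrev Rep (K : Type) [Field K] [NumberField K] (ℓ : ℕ) [Fact ℓ.Prime] (n : ℕ) : Type :=
  GK K →* GL (Fin n) (PadicAlgCl ℓ)

/-- the integers of the algebraic closure of `ℚ_ℓ` modulo `ℓ ^ m` -/
def Tor (ℓ : ℕ) [Fact ℓ.Prime] (m : ℕ) : Type := OO ℓ ⧸ Ideal.span {(ℓ : OO ℓ) ^ m}

noncomputable instance instTor (ℓ : ℕ) [Fact ℓ.Prime] (m : ℕ) : CommRing (Tor ℓ m) :=
  Ideal.Quotient.commRing (Ideal.span {(ℓ : OO ℓ) ^ m})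

/-- reduction modulo `ℓ ^ m` -/
noncomputable def red (ℓ : ℕ) [Fact ℓ.Prime] (m : ℕ) : OO ℓ →+* Tor ℓ m :=
  Ideal.Quotient.mk (Ideal.span {(ℓ : OO ℓ) ^ m})

/-- representations modulo `ℓ ^ m` for all `m` -/
abbrev TorsionReps (K : Type) [Field K] [NumberField K] (ℓ : ℕ) [Fact ℓ.Prime] (n : ℕ) : Type :=
  ∀ m, GK K →* GL (Fin n) (Tor ℓ m)

/-- Existence of `ρ` is equivalent to existence modulo all `ℓ ^ m` at most places, and to the existence of
`ℓ`-adic approximations at most places. -/
def Equivalences (K : Type) [Field K] [NumberField K] (ℓ : ℕ) [Fact ℓ.Prime] (n : ℕ) : Prop :=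
  ∀ (S : Set (HeightOneSpectrum (𝓞 K))) (α : Params K ℓ n) (c : ℝ),
    S.Finite → 0 ≤ c → c * (4 * n ^ 2) < 1 →
    (∀ strict : Bool, (∃ ρ : Rep K ℓ n, Attached S α strict ρ) ↔
      FiniteTraces S α ∧ ∃ r : TorsionReps K ℓ n, TorsionSystemOver S α (red ℓ) strict c r) ∧
    ((∃ ρ : Rep K ℓ n, Attached S α false ρ) ↔
      FiniteTraces S α ∧ ∃ ρ' : ℕ → Rep K ℓ n, AdicSystem S α c ρ')

/-- The congruences hold on the whole Galois group. -/
def Congruences (K : Type) [Field K] [NumberField K] (ℓ : ℕ) [Fact ℓ.Prime] (n : ℕ) : Prop :=
  ∀ (S : Set (HeightOneSpectrum (𝓞 K))) (α : Params K ℓ n) (c : ℝ),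
    S.Finite → 0 ≤ c → c * (4 * n ^ 2) < 1 → FiniteTraces S α →
    (∀ (strict : Bool) (r : TorsionReps K ℓ n), TorsionSystemOver S α (red ℓ) strict c r →
      ∃ ρ : Rep K ℓ n, Attached S α strict ρ ∧ TrCongOver (red ℓ) ρ r) ∧
    (∀ ρ' : ℕ → Rep K ℓ n, AdicSystem S α c ρ' →
      ∃ ρ : Rep K ℓ n, Attached S α false ρ ∧ TrNear ρ ρ')

/-- The constant `1 / (4 n²)` is exact: for `c = 1 / (4 n²)` there are data such that there are
representations modulo all `ℓ ^ m` and `ℓ`-adic approximations at most places, but no `ρ`. -/
def Exact (K : Type) [Field K] [NumberField K] (ℓ : ℕ) [Fact ℓ.Prime] (n : ℕ) : Prop :=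
  ∃ (S : Set (HeightOneSpectrum (𝓞 K))) (α : Params K ℓ n), S.Finite ∧ FiniteTraces S α ∧
    (∃ r : TorsionReps K ℓ n, TorsionSystemOver S α (red ℓ) true (1 / (4 * (n : ℝ) ^ 2)) r) ∧
    (∃ ρ' : ℕ → Rep K ℓ n, AdicSystem S α (1 / (4 * (n : ℝ) ^ 2)) ρ') ∧
    ∀ ρ : Rep K ℓ n, ¬ Attached S α false ρ

theorem result (K : Type) [Field K] [NumberField K] (ℓ : ℕ) [Fact ℓ.Prime] (n : ℕ) :
    Equivalences K ℓ n ∧ Congruences K ℓ n ∧ (0 < n → Exact K ℓ n) := by
  refine ⟨fun S α c hS hc0 hc => ⟨fun strict => ⟨?_, ?_⟩, ⟨?_, ?_⟩⟩, fun S α c hS hc0 hc hF => ⟨?_, ?_⟩,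
    sharp K ℓ n⟩
  · rintro ⟨ρ, hρ⟩
    exact ⟨attached_finite S α strict ρ hρ, attached_to_torsion S α hc0 strict ρ hρ⟩
  · rintro ⟨hF, r, hr⟩
    obtain ⟨ρ, hρ, -⟩ := forward S hS α c hc hF strict r hr
    exact ⟨ρ, hρ⟩
  · rintro ⟨ρ, hρ⟩
    exact ⟨attached_finite S α false ρ hρ, _, attached_to_adic S α hc0 false ρ hρ⟩
  · rintro ⟨hF, ρ', hρ'⟩
    obtain ⟨ρ, hρ, -⟩ := adic_limit S hS α c hc hF ρ' hρ'
    exact ⟨ρ, hρ⟩
  · intro strict r hr
    exact forward S hS α c hc hF strict r hr
  · intro ρ' hρ'
    exact adic_limit S hS α c hc hF ρ' hρ'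

end Pool.Agent.Results.MP_ef641d_nt.TorsionAtMostPrimes
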